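import Pool.Agent.D0H11.GO.Stm

/-!
Module CNTY of project GO (helper11): the number of the quadruples of the second row.
-/

set_option autoImplicit false

open Finset

namespace Pool.Agent.D0H3.GO

open Pool.Agent.D0H11.GO
open Pool.Agent.D0H11.GY (nn)

/-- the box -/
def bx (M : ℕ) : Fin 4 → Finset ℕ :=
  ![Ico (29 * M) (30 * M), Ico (25 * M) (26 * M), Ico (21 * M) (22 * M), Ico (20 * M) (30 * M)]

theorem mem_QY {M : ℕ} {q : Fin 4 → ℕ} : q ∈ QY M ↔
    ((29 * M ≤ q 0 ∧ q 0 < 30 * M) ∧ (25 * M ≤ q 1 ∧ q 1 < 26 * M) ∧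
      (21 * M ≤ q 2 ∧ q 2 < 22 * M) ∧ (20 * M ≤ q 3 ∧ q 3 < 30 * M)) ∧ Odd (nn q) := by
  have e : 20 * M + 20 * M / 2 = 30 * M := by omega
  simp only [QY, Pool.Agent.D0H11.GY.QQ, Finset.mem_filter, Fintype.mem_piFinset, Finset.mem_Ico,
    Fin.forall_fin_succ, Fin.forall_fin_zero_pi, e]
  constructor
  · rintro ⟨⟨h, ho⟩, h1, h2, h3, h4, h5⟩
    have a0 := h.1
    have a1 := h.2.1
    have a2 := h.2.2.1
    have a3 := h.2.2.2.1
    refine ⟨⟨⟨h1, a0.2⟩, ⟨h2, h3⟩, ⟨h4, h5⟩, a3⟩, ho⟩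
  · rintro ⟨⟨a0, a1, a2, a3⟩, ho⟩
    refine ⟨⟨⟨⟨by omega, a0.2⟩, ⟨?_, ?_⟩, ⟨?_, ?_⟩, a3, ?_⟩, ho⟩, a0.1, a1.1, a1.2, a2.1, a2.2⟩
    · exact (by omega : 20 * M ≤ q 1)
    · exact (by omega : q 1 < 30 * M)
    · exact (by omega : 20 * M ≤ q 2)
    · exact (by omega : q 2 < 30 * M)
    · exact fun i => i.elim0

theorem card_bx (M : ℕ) : (Fintype.piFinset (bx M)).card = 10 * M ^ 4 := by
  rw [Fintype.card_piFinset, Fin.prod_univ_four]
  simp only [bx, Matrix.cons_val_zero, Matrix.cons_val_one, Matrix.cons_val, Nat.card_Ico]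
  have e1 : 30 * M - 29 * M = M := by omega
  have e2 : 26 * M - 25 * M = M := by omega
  have e3 : 22 * M - 21 * M = M := by omega
  have e4 : 30 * M - 20 * M = 10 * M := by omega
  rw [e1, e2, e3, e4]; ring

theorem odd_nn {q : Fin 4 → ℕ} (h : (q 0 + q 1 + q 2) % 2 = 1) : Odd (nn q) := by
  unfold nn
  rw [Nat.odd_iff]
  have h0 : q 0 ^ 2 % 2 = q 0 % 2 := by
    rcases Nat.mod_two_eq_zero_or_one (q 0) with h | h <;> simp [Nat.pow_mod, h]
  have h1 : q 1 ^ 2 % 2 = q 1 % 2 := by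
    rcases Nat.mod_two_eq_zero_or_one (q 1) with h | h <;> simp [Nat.pow_mod, h]
  have h2 : q 2 ^ 2 % 2 = q 2 % 2 := by
    rcases Nat.mod_two_eq_zero_or_one (q 2) with h | h <;> simp [Nat.pow_mod, h]
  omega

theorem lower (M : ℕ) : M * M * (M / 2) * M ≤ (QY M).card := by
  classical
  let f : Fin M × Fin M × Fin (M / 2) × Fin M → (Fin 4 → ℕ) := fun t =>
    ![29 * M + t.1, 25 * M + t.2.1,
      21 * M + 2 * t.2.2.1 + (1 + (29 * M + t.1 + (25 * M + t.2.1) + 21 * M)) % 2, 20 * M + t.2.2.2]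
  have hf : Function.Injective f := by
    rintro ⟨a, b, c, d⟩ ⟨a', b', c', d'⟩ h
    have h0 := congrFun h 0
    have h1 := congrFun h 1
    have h2 := congrFun h 2
    have h3 := congrFun h 3
    simp only [f, Matrix.cons_val_zero, Matrix.cons_val_one, Matrix.cons_val] at h0 h1 h2 h3
    have e0 : (a : ℕ) = a' := by omega
    have e1 : (b : ℕ) = b' := by omega
    rw [e0, e1] at h2
    have e2 : (c : ℕ) = c' := by omega
    have e3 : (d : ℕ) = d' := by omega
    simp only [Prod.mk.injEq]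
    exact ⟨Fin.ext e0, Fin.ext e1, Fin.ext e2, Fin.ext e3⟩
  have h1 : (Finset.univ.image f) ⊆ QY M := by
    intro q hq
    obtain ⟨⟨a, b, c, d⟩, -, rfl⟩ := Finset.mem_image.mp hq
    have ha := a.2
    have hb := b.2
    have hc := c.2
    have hd := d.2
    rw [mem_QY]
    refine ⟨⟨⟨?_, ?_⟩, ⟨?_, ?_⟩, ⟨?_, ?_⟩, ⟨?_, ?_⟩⟩, odd_nn ?_⟩ <;>
      simp only [f, Matrix.cons_val_zero, Matrix.cons_val_one, Matrix.cons_val] <;> omega
  calc M * M * (M / 2) * M = (Finset.univ.image f).card := by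
        rw [Finset.card_image_of_injective _ hf, Finset.card_univ]
        simp only [Fintype.card_prod, Fintype.card_fin]
        ring
    _ ≤ (QY M).card := Finset.card_le_card h1

open Classical in
theorem upper (M : ℕ) : ((QY M ×ˢ QY M).filter fun p => nn p.1 = nn p.2 ∧
    p.1 0 + p.2 1 = p.2 0 + p.1 1 ∧ p.1 0 + p.2 2 = p.2 0 + p.1 2).card ≤ 10 * M ^ 5 := by
  have e : 10 * M ^ 5 = (Fintype.piFinset (bx M) ×ˢ Ico (29 * M) (30 * M)).card := by
    rw [Finset.card_product, card_bx, Nat.card_Ico]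
    have e1 : 30 * M - 29 * M = M := by omega
    rw [e1]; ring
  rw [e]
  apply Finset.card_le_card_of_injOn (fun p => (p.1, p.2 0))
  · intro p hp
    rw [Finset.mem_coe, Finset.mem_filter, Finset.mem_product, mem_QY, mem_QY] at hp
    obtain ⟨⟨⟨⟨a0, a1, a2, a3⟩, -⟩, ⟨⟨b0, -, -, -⟩, -⟩⟩, -⟩ := hp
    rw [Finset.mem_coe, Finset.mem_product, Fintype.mem_piFinset]
    refine ⟨?_, Finset.mem_Ico.mpr b0⟩
    intro i
    fin_cases i
    · exact Finset.mem_Ico.mpr a0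
    · exact Finset.mem_Ico.mpr a1
    · exact Finset.mem_Ico.mpr a2
    · exact Finset.mem_Ico.mpr a3
  · intro p hp p' hp' h
    rw [Finset.mem_coe, Finset.mem_filter] at hp hp'
    obtain ⟨-, n1, h1, h2⟩ := hp
    obtain ⟨-, n1', h1', h2'⟩ := hp'
    simp only [Prod.mk.injEq] at h
    obtain ⟨g1, g2⟩ := h
    rw [g1, g2] at h1 h2
    rw [g1] at n1
    have e1 : p.2 1 = p'.2 1 := by omega
    have e2 : p.2 2 = p'.2 2 := by omega
    have e3 : p.2 3 = p'.2 3 := by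
      rw [n1'] at n1
      unfold nn at n1
      rw [e1, e2, g2] at n1
      have : p.2 3 ^ 2 = p'.2 3 ^ 2 := by omega
      exact (Nat.pow_left_injective (n := 2) (by norm_num)) this
    apply Prod.ext g1
    funext i
    fin_cases i
    · exact g2
    · exact e1
    · exact e2
    · exact e3

theorem t_CNTY : S_CNTY := by
  refine ⟨10, by norm_num, fun M hM => ?_, fun M _ => ?_⟩
  · have h1 := lower M
    have h2 : M ≤ 3 * (M / 2) := by omega
    have h3 : M ^ 4 ≤ 3 * (M * M * (M / 2) * M) := by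
      calc M ^ 4 = M * M * M * M := by ring
        _ ≤ M * M * (3 * (M / 2)) * M := by gcongr
        _ = 3 * (M * M * (M / 2) * M) := by ring
    have h4 : M ^ 4 ≤ 10 * (QY M).card := by omega
    exact_mod_cast h4
  · have := upper M
    exact_mod_cast this

end Pool.Agent.D0H3.GO
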